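import Pool.Agent.L0h7.KN.Stm

/-! KN, module MNO (helper6): monotonicity -/

set_option autoImplicit false

open CategoryTheory

noncomputable section

namespace Pool.Agent.L0h6.KN

open Pool.Agent.Y75.NK Pool.Agent.L0h7.KN

theorem ev_comp (R : Type) [Ring R] (m n d : ℕ)
    (M : Matrix (Fin d) (Fin d) (MonoidAlgebra R ((EF m).obj (fm n)))) (G H : GrpCat.{0})
    (f : fm n ⟶ G) (g : G ⟶ H) : ev R m M (f ≫ g) =
      (ev R m M f).map (MonoidAlgebra.mapDomainRingHom R ((EF m).map g).hom) := by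
  unfold ev
  rw [Matrix.map_map, ← RingHom.coe_comp, ← MonoidAlgebra.mapDomainRingHom_comp]
  have h : ((EF m).map (f ≫ g)).hom = ((EF m).map g).hom.comp ((EF m).map f).hom := by
    rw [(EF m).map_comp]
    rfl
  rw [h]

theorem kclass_nat (R : Type) [Ring R] (m : ℕ) (G H : GrpCat.{0}) (g : G ⟶ H)
    (e : Idem (MonoidAlgebra R ((EF m).obj G))) :
    kclass R m H (e.map (MonoidAlgebra.mapDomainRingHom R ((EF m).map g).hom)) =
      ((gr R ⋙ Kneg m).map g).hom (kclass R m G e) :=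
  congrArg (fun z => z.hom (cls e)) ((kclT R m).naturality g)

theorem t_MNO : S_MNO := by
  intro R _ m n d M G H f g ⟨h, h0⟩
  have hi : ev R m M (f ≫ g) * ev R m M (f ≫ g) = ev R m M (f ≫ g) := by
    rw [ev_comp, ← Matrix.map_mul, h]
  refine ⟨hi, ?_⟩
  have h1 := kclass_nat R m G H g ⟨d, ev R m M f, h⟩
  rw [h0, map_zero] at h1
  have h2 : (⟨d, ev R m M (f ≫ g), hi⟩ : Idem (MonoidAlgebra R ((EF m).obj H))) =
      (⟨d, ev R m M f, h⟩ : Idem (MonoidAlgebra R ((EF m).obj G))).map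
        (MonoidAlgebra.mapDomainRingHom R ((EF m).map g).hom) := by
    unfold Idem.map
    congr 1
    exact ev_comp R m n d M G H f g
  rw [h2]
  exact h1

end Pool.Agent.L0h6.KN
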