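import Pool.Agent.L0h7.KN.Stm

/-! KN, module REP (helper6): formal matrices -/

set_option autoImplicit false

open CategoryTheory

noncomputable section

namespace Pool.Agent.L0h6.KN

open Pool.Agent.Y75.NK Pool.Agent.L0h7.KN

theorem rep_one (R : Type) [Ring R] (m : ℕ) (G : GrpCat.{0})
    (a : MonoidAlgebra R ((EF m).obj G)) : ∃ T : Finset G, ∀ (H : GrpCat.{0}) (f : H ⟶ G),
      (∀ t ∈ T, t ∈ f.hom.range) →
      ∃ b, MonoidAlgebra.mapDomainRingHom R ((EF m).map f).hom b = a := by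
  classical
  induction a using MonoidAlgebra.induction_linear with
  | zero => exact ⟨∅, fun H f _ => ⟨0, map_zero _⟩⟩
  | add x y hx hy =>
    obtain ⟨T, hT⟩ := hx
    obtain ⟨T', hT'⟩ := hy
    refine ⟨T ∪ T', fun H f h => ?_⟩
    obtain ⟨b, hb⟩ := hT H f fun t ht => h t (Finset.mem_union_left _ ht)
    obtain ⟨b', hb'⟩ := hT' H f fun t ht => h t (Finset.mem_union_right _ ht)
    exact ⟨b + b', by rw [map_add, hb, hb']⟩
  | single x r =>
    refine ⟨{prj m G x}, fun H f h => ?_⟩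
    obtain ⟨y, hy⟩ := EF_range m f x (h _ (Finset.mem_singleton_self _))
    refine ⟨MonoidAlgebra.single y r, ?_⟩
    rw [← hy]
    simp

theorem t_REP : S_REP := by
  classical
  intro R _ m G e
  choose T hT using fun i j => rep_one R m G (e.e i j)
  obtain ⟨U, hU⟩ : ∃ U : Finset G, U = Finset.univ.biUnion fun i => Finset.univ.biUnion (T i) :=
    ⟨_, rfl⟩
  let f : fm U.card ⟶ G := GrpCat.ofHom (FreeGroup.lift fun i => ((U.equivFin.symm i : U) : G))
  have hf : ∀ t ∈ U, t ∈ f.hom.range := by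
    intro t ht
    refine ⟨FreeGroup.of (U.equivFin ⟨t, ht⟩), ?_⟩
    show FreeGroup.lift (fun i => ((U.equivFin.symm i : U) : G)) (FreeGroup.of _) = t
    rw [FreeGroup.lift_apply_of, Equiv.symm_apply_apply]
  have h1 : ∀ i j, ∃ b, MonoidAlgebra.mapDomainRingHom R ((EF m).map f).hom b = e.e i j := by
    intro i j
    refine hT i j _ f fun t ht => hf t ?_
    rw [hU, Finset.mem_biUnion]
    refine ⟨i, Finset.mem_univ i, ?_⟩
    rw [Finset.mem_biUnion]
    exact ⟨j, Finset.mem_univ j, ht⟩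
  choose M hM using h1
  refine ⟨U.card, Matrix.of M, f, ?_⟩
  ext1 i j
  exact hM i j

end Pool.Agent.L0h6.KN
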