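import Pool.Agent.L0h7.KN.Stm

/-! KN, module SHT (helper6): short relations -/

set_option autoImplicit false

open CategoryTheory

noncomputable section

namespace Pool.Agent.L0h6.KN

open Pool.Agent.Y75.NK Pool.Agent.L0h7.KN

/-- the canonical map between groups defined by relations -/
def pm (n : ℕ) (W W' : Set (FreeGroup (Fin n))) (h : W ⊆ W') : PG n W ⟶ PG n W' :=
  GrpCat.ofHom (QuotientGroup.map _ _ (MonoidHom.id _) (by
    rw [Subgroup.comap_id]
    exact Subgroup.normalClosure_mono h))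

theorem pm_toPG (n : ℕ) (W W' : Set (FreeGroup (Fin n))) (h : W ⊆ W') :
    toPG n W ≫ pm n W W' h = toPG n W' := rfl

theorem pg_ext {n : ℕ} {W : Set (FreeGroup (Fin n))} {H : GrpCat.{0}} {a b : PG n W ⟶ H}
    (h : toPG n W ≫ a = toPG n W ≫ b) : a = b := by
  apply GrpCat.hom_ext
  apply QuotientGroup.monoidHom_ext
  exact congrArg GrpCat.Hom.hom h

theorem rels_mono {n : ℕ} {G : GrpCat.{0}} (f : fm n ⟶ G) {i j : ℕ} (h : i ≤ j) :
    rels f i ⊆ rels f j := fun _ hw => ⟨hw.1.trans h, hw.2⟩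

theorem pm_self (n : ℕ) (W : Set (FreeGroup (Fin n))) (h : W ⊆ W) : pm n W W h = 𝟙 _ := by
  apply pg_ext
  rw [pm_toPG, Category.comp_id]

theorem pm_pm (n : ℕ) (W W' W'' : Set (FreeGroup (Fin n))) (h : W ⊆ W') (h' : W' ⊆ W'') :
    pm n W W' h ≫ pm n W' W'' h' = pm n W W'' (h.trans h') := by
  apply pg_ext
  rw [← Category.assoc, pm_toPG, pm_toPG, pm_toPG]

/-- the sequence of groups -/
def sq {n : ℕ} {G : GrpCat.{0}} (f : fm n ⟶ G) : ℕ ⥤ GrpCat.{0} where
  obj j := PG n (rels f j)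
  map h := pm n _ _ (rels_mono f (leOfHom h))
  map_id j := pm_self n _ _
  map_comp h h' := (pm_pm n _ _ _ _ _).symm

/-- the map to the group -/
def toG {n : ℕ} {G : GrpCat.{0}} (f : fm n ⟶ G) (j : ℕ) : PG n (rels f j) ⟶ G :=
  GrpCat.ofHom (QuotientGroup.lift _ f.hom (by
    intro x hx
    have : Subgroup.normalClosure (rels f j) ≤ f.hom.ker := by
      apply Subgroup.normalClosure_le_normal
      intro w hw
      exact hw.2
    exact this hx))

theorem toG_toPG {n : ℕ} {G : GrpCat.{0}} (f : fm n ⟶ G) (j : ℕ) :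
    toPG n (rels f j) ≫ toG f j = f := rfl

theorem pm_toG {n : ℕ} {G : GrpCat.{0}} (f : fm n ⟶ G) {i j : ℕ} (h : i ≤ j) :
    pm n (rels f i) (rels f j) (rels_mono f h) ≫ toG f j = toG f i := by
  apply pg_ext
  rw [← Category.assoc, pm_toPG, toG_toPG, toG_toPG]

theorem gcol {n : ℕ} {G : GrpCat.{0}} (f : fm n ⟶ G) (hf : Function.Surjective f.hom) :
    GCol (sq f) G (toG f) where
  comp h := pm_toG f (leOfHom h)
  surj b := by
    obtain ⟨w, hw⟩ := hf b
    exact ⟨0, (QuotientGroup.mk w : FreeGroup (Fin n) ⧸ Subgroup.normalClosure (rels f 0)), hw⟩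
  inj i a ha := by
    obtain ⟨w, rfl⟩ := QuotientGroup.mk_surjective (s := Subgroup.normalClosure (rels f i)) a
    have hw : f.hom w = 1 := ha
    refine ⟨max i w.toWord.length, homOfLE (le_max_left _ _), ?_⟩
    have h1 : w ∈ Subgroup.normalClosure (rels f (max i w.toWord.length)) :=
      Subgroup.subset_normalClosure ⟨le_max_right _ _, hw⟩
    exact (QuotientGroup.eq_one_iff w).2 h1

theorem t_SHT : S_SHT := by
  intro hKZ hMON hCON hGRC hEFC hSTG R _ m n d M G f hf hT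
  obtain ⟨j, h, hj⟩ := hSTG hKZ hMON hCON hGRC hEFC R m n d M (sq f) G (toG f) (gcol f hf)
    (toPG n (rels f 0)) hT
  exact ⟨j, hj⟩

end Pool.Agent.L0h6.KN
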